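import Pool.Agent.helper77.SK.Spec

/-!
# Project SK, row HP: the inequality of Hanson and Petridis and its equality case
-/

set_option autoImplicit false

namespace Pool.Agent.SK

open Polynomial Finset

theorem HP (h1 : FD_stmt) (h2 : FV_stmt) : HP_stmt := by
  intro p hp A B d ε hA hB hd hdB hCl
  obtain ⟨hdeg, hcoeff⟩ := h1 p B d ε hB hd
  have hBpos : 0 < B.card := hB.card_pos
  have hne : (((d + B.card - 1).choose d : ℕ) : ZMod p) ≠ 0 := by
    intro h0
    rw [ZMod.natCast_eq_zero_iff] at h0
    have h3 : p ∣ (d + B.card - 1).factorial := by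
      rw [← Nat.choose_mul_factorial_mul_factorial (show d ≤ d + B.card - 1 by omega)]
      exact Dvd.dvd.mul_right (Dvd.dvd.mul_right h0 _) _
    have h4 := (hp.out.dvd_factorial).1 h3
    omega
  have hdvd : pol A ^ B.card ∣ FF B d ε := by
    have e : pol A ^ B.card = ∏ a ∈ A, (X - C a) ^ B.card := by
      unfold pol
      rw [prod_pow]
    rw [e]
    refine Finset.prod_dvd_of_coprime ?_ ?_
    · intro a _ a' _ haa
      exact (Polynomial.pairwise_coprime_X_sub_C (K := ZMod p) (s := id) Function.injective_id haa).pow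
    · intro a ha
      rw [X_sub_C_pow_dvd_iff, X_pow_dvd_iff]
      intro j hj
      have h3 := (h2 p A B d ε hB hd hCl a ha).1 j hj
      unfold tc at h3
      rwa [taylor_apply] at h3
  have hF0 : FF B d ε ≠ 0 := fun h => by
    rw [h, coeff_zero] at hcoeff
    exact hne hcoeff.symm
  have hpm : (pol A).Monic := monic_prod_X_sub_C _ _
  have hPm : (pol A ^ B.card).Monic := hpm.pow _
  have hPdeg : (pol A ^ B.card).natDegree = A.card * B.card := by
    have h5 : (pol A).natDegree = A.card := by
      unfold pol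
      rw [natDegree_prod_of_monic _ _ fun s _ => monic_X_sub_C s]
      simp
    rw [hpm.natDegree_pow, h5, mul_comm]
  have hle : A.card * B.card ≤ d := by
    rw [← hPdeg]
    exact (natDegree_le_of_dvd hdvd hF0).trans hdeg
  refine ⟨hle, hne, ?_⟩
  intro heq
  obtain ⟨q, hq⟩ := hdvd
  have hq0 : q ≠ 0 := fun h => hF0 (by rw [hq, h, mul_zero])
  have hdq : q.natDegree = 0 := by
    have h3 : (FF B d ε).natDegree = (pol A ^ B.card).natDegree + q.natDegree := by
      rw [hq]
      exact natDegree_mul hPm.ne_zero hq0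
    rw [hPdeg, heq] at h3
    omega
  have hqC := eq_C_of_natDegree_eq_zero hdq
  have hc : q.coeff 0 = (((d + B.card - 1).choose d : ℕ) : ZMod p) := by
    rw [← hcoeff, hq, hqC, coeff_mul_C, coeff_C_zero]
    have h4 : (pol A ^ B.card).coeff d = 1 := by
      have h5 := hPm.coeff_natDegree
      rwa [hPdeg, heq] at h5
    rw [h4, one_mul]
  rw [← hc, ← hqC, mul_comm]
  exact hq

end Pool.Agent.SK
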